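import Mathlib

set_option autoImplicit false

namespace Pool.Agent.Results.MP_befaea_co.LargestSquare

open scoped BigOperators

/-- `InscribedCube m n s`: some congruent copy of the `m`-dimensional cube `[0,s]^m`, that is, the
image of `[0,s]^m` under an isometric map from Euclidean `ℝ^m` to Euclidean `ℝ^n`, is contained in
the unit cube `[0,1]^n`. -/
def InscribedCube (m n : ℕ) (s : ℝ) : Prop :=
  0 ≤ s ∧ ∃ φ : EuclideanSpace ℝ (Fin m) → EuclideanSpace ℝ (Fin n), Isometry φ ∧
    ∀ x : EuclideanSpace ℝ (Fin m), (∀ i, x i ∈ Set.Icc (0 : ℝ) s) →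
      ∀ j, φ x j ∈ Set.Icc (0 : ℝ) 1

/-- `f m n` is the largest edge (the supremum of all edges) of an `m`-dimensional cube inscribed
in `[0,1]^n`. -/
noncomputable def f (m n : ℕ) : ℝ := sSup {s : ℝ | InscribedCube m n s}

/-- The analytic heart: two orthogonal vectors of `[-1,1]^N`, `N` odd, of equal squared length
`N - Δ` have `Δ ≥ 3/4`. -/
lemma key {N : ℕ} (hN : Odd N) (p q : Fin N → ℝ) (hp : ∀ i, |p i| ≤ 1) (hq : ∀ i, |q i| ≤ 1)
    (L : ℝ) (hpL : ∑ i, p i ^ 2 = L) (hqL : ∑ i, q i ^ 2 = L) (hpq : ∑ i, p i * q i = 0) :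
    L ≤ N - 3 / 4 := by
  by_contra hcon
  push Not at hcon
  -- every coordinate is larger than 1/2 in absolute value
  have big : ∀ (r : Fin N → ℝ), (∀ i, |r i| ≤ 1) → ∑ i, r i ^ 2 = L → ∀ i, 1 / 2 ≤ |r i| := by
    intro r hr hrL i
    by_contra hlt
    push Not at hlt
    have h1 : ∑ j, (1 - r j ^ 2) = N - L := by
      rw [Finset.sum_sub_distrib, hrL]; simp
    have h2 : (1 - r i ^ 2) ≤ ∑ j, (1 - r j ^ 2) := by
      apply Finset.single_le_sum (f := fun j => 1 - r j ^ 2) _ (Finset.mem_univ i)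
      intro j _
      have := hr j
      have h3 : r j ^ 2 ≤ 1 := by
        rw [← sq_abs]; nlinarith [abs_nonneg (r j)]
      linarith
    have h4 : r i ^ 2 < 1 / 4 := by
      rw [← sq_abs]; nlinarith [abs_nonneg (r i)]
    linarith
  have hpb := big p hp hpL
  have hqb := big q hq hqL
  -- sum of 1 - |p q| is less than 1
  have hsmall : ∑ i, (1 - |p i * q i|) < 1 := by
    have h1 : ∑ i, (1 - |p i * q i|) ≤ ∑ i, (2 / 3) * ((1 - p i ^ 2) + (1 - q i ^ 2)) := by
      apply Finset.sum_le_sum
      intro i _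
      rw [abs_mul, ← sq_abs (p i), ← sq_abs (q i)]
      have a1 := hpb i
      have a2 := hqb i
      have a3 := hp i
      have a4 := hq i
      set a := |p i|
      set b := |q i|
      nlinarith [mul_nonneg (sub_nonneg.2 a1) (sub_nonneg.2 a3),
        mul_nonneg (sub_nonneg.2 a2) (sub_nonneg.2 a4),
        mul_nonneg (sub_nonneg.2 a3) (sub_nonneg.2 a4)]
    have h2 : ∑ i, (2 / 3) * ((1 - p i ^ 2) + (1 - q i ^ 2)) = (4 / 3) * (N - L) := by
      rw [← Finset.mul_sum, Finset.sum_add_distrib, Finset.sum_sub_distrib,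
        Finset.sum_sub_distrib, hpL, hqL]
      simp
      ring
    rw [h2] at h1
    linarith
  -- parity
  let σ : Fin N → ℤ := fun i => if 0 ≤ p i * q i then 1 else -1
  have hσabs : ∀ i, ((σ i : ℤ) : ℝ) * |p i * q i| = p i * q i := by
    intro i
    by_cases h : 0 ≤ p i * q i
    · simp [σ, h, abs_of_nonneg h]
    · have h' : p i * q i < 0 := not_le.1 h
      simp [σ, h, abs_of_neg h']
  have hσodd : ∀ i, Odd (σ i) := by
    intro i
    by_cases h : 0 ≤ p i * q i
    · simp [σ, h]
    · simp [σ, h]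
  have hsumodd : Odd (∑ i, σ i) := by
    have : ∀ (s : Finset (Fin N)), (Odd (∑ i ∈ s, σ i) ↔ Odd s.card) := by
      intro s
      induction s using Finset.induction_on with
      | empty => simp
      | insert a s ha ih =>
        rw [Finset.sum_insert ha, Finset.card_insert_of_notMem ha]
        have h1 := hσodd a
        rw [Int.odd_add]
        constructor
        · intro h
          have h2 := h.1 h1
          rw [Nat.odd_add_one]
          intro h3
          have h4 := ih.2 h3
          exact (Int.not_even_iff_odd.2 h4) h2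
        · intro h
          rw [Nat.odd_add_one] at h
          constructor
          · intro _
            by_contra h5
            exact h (ih.1 (Int.not_even_iff_odd.1 h5))
          · intro _
            exact h1
    have h := (this Finset.univ).2
    apply h
    simpa using hN
  have hne : (∑ i, σ i) ≠ 0 := by
    intro h
    rw [h] at hsumodd
    exact (by decide : ¬ Odd (0 : ℤ)) hsumodd
  have hge : (1 : ℝ) ≤ |((∑ i, σ i : ℤ) : ℝ)| := by
    have : (1 : ℤ) ≤ |∑ i, σ i| := Int.one_le_abs hne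
    exact_mod_cast this
  have heq : ((∑ i, σ i : ℤ) : ℝ) = ∑ i, ((σ i : ℤ) : ℝ) * (1 - |p i * q i|) := by
    have : ∑ i, ((σ i : ℤ) : ℝ) * (1 - |p i * q i|)
        = ∑ i, ((σ i : ℤ) : ℝ) - ∑ i, p i * q i := by
      rw [← Finset.sum_sub_distrib]
      apply Finset.sum_congr rfl
      intro i _
      rw [mul_sub, hσabs i, mul_one]
    rw [this, hpq, sub_zero]
    push_cast
    rfl
  have hle : |((∑ i, σ i : ℤ) : ℝ)| ≤ ∑ i, (1 - |p i * q i|) := by
    rw [heq]
    refine (Finset.abs_sum_le_sum_abs _ _).trans ?_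
    apply Finset.sum_le_sum
    intro i _
    have h1 : |((σ i : ℤ) : ℝ)| = 1 := by
      by_cases h : 0 ≤ p i * q i
      · simp [σ, h]
      · simp [σ, h]
    rw [abs_mul, h1, one_mul]
    have h2 : |p i * q i| ≤ 1 := by
      rw [abs_mul]
      have := hp i
      have := hq i
      nlinarith [abs_nonneg (p i), abs_nonneg (q i)]
    rw [abs_of_nonneg (by linarith)]
  linarith

/-- Upper bound: every square inscribed in an odd-dimensional unit cube `[0,1]^N` has squared
edge at most `(N - 3/4) / 2`. -/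
lemma upper {N : ℕ} (hN : Odd N) (s : ℝ) (h : InscribedCube 2 N s) :
    2 * s ^ 2 ≤ N - 3 / 4 := by
  obtain ⟨hs, φ, hφ, hin⟩ := h
  let O : EuclideanSpace ℝ (Fin 2) := !₂[0, 0]
  let X : EuclideanSpace ℝ (Fin 2) := !₂[s, 0]
  let Y : EuclideanSpace ℝ (Fin 2) := !₂[0, s]
  let Z : EuclideanSpace ℝ (Fin 2) := !₂[s, s]
  have hO := hin O (by intro i; fin_cases i <;> simp [O, hs])
  have hX := hin X (by intro i; fin_cases i <;> simp [X, hs])
  have hY := hin Y (by intro i; fin_cases i <;> simp [Y, hs])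
  have hZ := hin Z (by intro i; fin_cases i <;> simp [Z, hs])
  have hd : ∀ P Q : EuclideanSpace ℝ (Fin 2), ∑ j, (φ P j - φ Q j) ^ 2
      = (P 0 - Q 0) ^ 2 + (P 1 - Q 1) ^ 2 := by
    intro P Q
    have h1 := hφ.dist_eq P Q
    rw [EuclideanSpace.dist_eq, EuclideanSpace.dist_eq] at h1
    have h2 : ∑ j, dist (φ P j) (φ Q j) ^ 2 = ∑ i, dist (P i) (Q i) ^ 2 := by
      have h3 : 0 ≤ ∑ j, dist (φ P j) (φ Q j) ^ 2 := Finset.sum_nonneg (fun _ _ => sq_nonneg _)
      have h4 : 0 ≤ ∑ i, dist (P i) (Q i) ^ 2 := Finset.sum_nonneg (fun _ _ => sq_nonneg _)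
      exact (Real.sqrt_inj h3 h4).1 h1
    simpa [Real.dist_eq, sq_abs, Fin.sum_univ_two] using h2
  have e1 := hd Z O
  have e2 := hd X Y
  have e3 := hd Z Y
  have e4 := hd O X
  have e5 := hd Z X
  have e6 := hd O Y
  simp [O, X, Y, Z] at e1 e2 e3 e4 e5 e6
  apply key hN (fun j => φ Z j - φ O j) (fun j => φ X j - φ Y j)
  · intro j
    have := hZ j
    have := hO j
    simp only [Set.mem_Icc] at *
    rw [abs_le]; constructor <;> linarith
  · intro j
    have := hX j
    have := hY j
    simp only [Set.mem_Icc] at *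
    rw [abs_le]; constructor <;> linarith
  · show ∑ j, (φ Z j - φ O j) ^ 2 = _
    rw [e1]; ring
  · show ∑ j, (φ X j - φ Y j) ^ 2 = _
    rw [e2]; ring
  · have h1 : ∑ j, (φ Z j - φ O j) * (φ X j - φ Y j)
        = (1 / 2) * (∑ j, (φ Z j - φ Y j) ^ 2 + ∑ j, (φ O j - φ X j) ^ 2
          - ∑ j, (φ Z j - φ X j) ^ 2 - ∑ j, (φ O j - φ Y j) ^ 2) := by
      rw [← Finset.sum_add_distrib, ← Finset.sum_sub_distrib, ← Finset.sum_sub_distrib,
        Finset.mul_sum]
      apply Finset.sum_congr rfl
      intro j _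
      ring
    show ∑ j, (φ Z j - φ O j) * (φ X j - φ Y j) = 0
    rw [h1, e3, e4, e5, e6]
    ring

/-- Lower bound principle: two orthogonal vectors of `[-1,1]^N` of equal length are the diagonals
of a square inscribed in the unit cube. -/
lemma lower {N : ℕ} (s : ℝ) (hs : 0 < s) (p q : Fin N → ℝ) (hp : ∀ i, |p i| ≤ 1)
    (hq : ∀ i, |q i| ≤ 1) (hpL : ∑ i, p i ^ 2 = 2 * s ^ 2) (hqL : ∑ i, q i ^ 2 = 2 * s ^ 2)
    (hpq : ∑ i, p i * q i = 0) : InscribedCube 2 N s := by
  refine ⟨hs.le, fun x => WithLp.toLp 2 (fun j => 1 / 2 - p j / 2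
    + (x 0 / s) * ((p j + q j) / 2) + (x 1 / s) * ((p j - q j) / 2)), ?_, ?_⟩
  · apply Isometry.of_dist_eq
    intro x y
    rw [EuclideanSpace.dist_eq, EuclideanSpace.dist_eq]
    congr 1
    simp only [Real.dist_eq, sq_abs, Fin.sum_univ_two]
    have h1 : ∀ j, (1 / 2 - p j / 2 + (x 0 / s) * ((p j + q j) / 2)
          + (x 1 / s) * ((p j - q j) / 2)
        - (1 / 2 - p j / 2 + (y 0 / s) * ((p j + q j) / 2)
          + (y 1 / s) * ((p j - q j) / 2))) ^ 2
        = ((x 0 - y 0 + (x 1 - y 1)) / (2 * s)) ^ 2 * p j ^ 2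
          + ((x 0 - y 0 - (x 1 - y 1)) / (2 * s)) ^ 2 * q j ^ 2
          + 2 * (((x 0 - y 0 + (x 1 - y 1)) / (2 * s))
            * ((x 0 - y 0 - (x 1 - y 1)) / (2 * s))) * (p j * q j) := by
      intro j
      field_simp
      ring
    rw [Finset.sum_congr rfl (fun j _ => h1 j), Finset.sum_add_distrib, Finset.sum_add_distrib,
      ← Finset.mul_sum, ← Finset.mul_sum, ← Finset.mul_sum, hpL, hqL, hpq]
    field_simp
    ring
  · intro x hx j
    have hx0 := hx 0
    have hx1 := hx 1
    simp only [Set.mem_Icc] at hx0 hx1 ⊢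
    have a0 : 0 ≤ x 0 / s := div_nonneg hx0.1 hs.le
    have a1 : x 0 / s ≤ 1 := (div_le_one hs).2 hx0.2
    have b0 : 0 ≤ x 1 / s := div_nonneg hx1.1 hs.le
    have b1 : x 1 / s ≤ 1 := (div_le_one hs).2 hx1.2
    have hpj := abs_le.1 (hp j)
    have hqj := abs_le.1 (hq j)
    set t := x 0 / s
    set r := x 1 / s
    set P := p j
    set Q := q j
    show 0 ≤ 1 / 2 - P / 2 + t * ((P + Q) / 2) + r * ((P - Q) / 2) ∧
      1 / 2 - P / 2 + t * ((P + Q) / 2) + r * ((P - Q) / 2) ≤ 1
    constructor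
    · rcases le_total (t + r) 1 with h | h <;> rcases le_total t r with h' | h' <;>
      nlinarith [mul_nonneg (sub_nonneg.2 h) (sub_nonneg.2 hpj.1),
        mul_nonneg (sub_nonneg.2 h) (sub_nonneg.2 hpj.2),
        mul_nonneg (sub_nonneg.2 h') (sub_nonneg.2 hqj.1),
        mul_nonneg (sub_nonneg.2 h') (sub_nonneg.2 hqj.2)]
    · rcases le_total (t + r) 1 with h | h <;> rcases le_total t r with h' | h' <;>
      nlinarith [mul_nonneg (sub_nonneg.2 h) (sub_nonneg.2 hpj.1),
        mul_nonneg (sub_nonneg.2 h) (sub_nonneg.2 hpj.2),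
        mul_nonneg (sub_nonneg.2 h') (sub_nonneg.2 hqj.1),
        mul_nonneg (sub_nonneg.2 h') (sub_nonneg.2 hqj.2)]

/-- **Theorem.** For every `n ≥ 1`, the largest edge of a square contained in the unit cube
`[0,1]^(2n+1)` exists and equals `√(n + 1/8)`; that is, `f(2, 2n+1) = √(n + 1/8)`. -/
theorem result (n : ℕ) (hn : 1 ≤ n) :
    IsGreatest {s : ℝ | InscribedCube 2 (2 * n + 1) s} (Real.sqrt (n + 1 / 8)) ∧
      f 2 (2 * n + 1) = Real.sqrt (n + 1 / 8) := by
  have hG : IsGreatest {s : ℝ | InscribedCube 2 (2 * n + 1) s} (Real.sqrt (n + 1 / 8)) := by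
    have hpos : (0 : ℝ) < n + 1 / 8 := by positivity
    constructor
    · show InscribedCube 2 (2 * n + 1) (Real.sqrt (n + 1 / 8))
      obtain ⟨m, rfl⟩ : ∃ m, n = m + 1 := ⟨n - 1, by omega⟩
      -- the two diagonals
      let p : Fin (2 * (m + 1) + 1) → ℝ := fun i => if i.val = 0 then 1 / 2 else 1
      let q : Fin (2 * (m + 1) + 1) → ℝ := fun i =>
        if i.val = 0 then 1 else if i.val = 1 then 1 / 2 else -(-1) ^ i.val
      have hsum : ∀ (g : ℕ → ℝ), ∑ i : Fin (2 * (m + 1) + 1), g i.val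
          = g 0 + g 1 + ∑ i ∈ Finset.range (2 * m + 1), g (i + 2) := by
        intro g
        rw [Fin.sum_univ_eq_sum_range, show 2 * (m + 1) + 1 = (2 * m + 1) + 1 + 1 by ring,
          Finset.sum_range_succ', Finset.sum_range_succ']
        ring
      apply lower _ (Real.sqrt_pos.2 hpos) p q
      · intro i
        by_cases h : i.val = 0
        · simp only [p, if_pos h]; rw [abs_of_pos] <;> norm_num
        · simp only [p, if_neg h]; simp
      · intro i
        by_cases h : i.val = 0
        · simp only [q, if_pos h]; simp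
        · by_cases h' : i.val = 1
          · simp only [q, if_neg h, if_pos h']; rw [abs_of_pos] <;> norm_num
          · simp only [q, if_neg h, if_neg h']; simp
      · rw [Real.sq_sqrt hpos.le]
        have := hsum (fun k => (if k = 0 then (1 / 2 : ℝ) else 1) ^ 2)
        simp only [p]
        rw [this]
        simp
        ring
      · rw [Real.sq_sqrt hpos.le]
        have := hsum (fun k => (if k = 0 then (1 : ℝ) else if k = 1 then 1 / 2
          else -(-1) ^ k) ^ 2)
        simp only [q]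
        rw [this]
        have h2 : ∀ i ∈ Finset.range (2 * m + 1), (if i + 2 = 0 then (1 : ℝ) else
            if i + 2 = 1 then 1 / 2 else -(-1) ^ (i + 2)) ^ 2 = 1 := by
          intro i _
          rw [if_neg (by omega), if_neg (by omega), neg_sq, ← pow_mul, mul_comm, pow_mul]
          simp
        rw [Finset.sum_congr rfl h2]
        simp
        ring
      · have := hsum (fun k => (if k = 0 then (1 / 2 : ℝ) else 1) *
          (if k = 0 then (1 : ℝ) else if k = 1 then 1 / 2 else -(-1) ^ k))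
        simp only [p, q]
        rw [this]
        have h2 : ∀ i ∈ Finset.range (2 * m + 1), (if i + 2 = 0 then (1 / 2 : ℝ) else 1) *
            (if i + 2 = 0 then (1 : ℝ) else if i + 2 = 1 then 1 / 2 else -(-1) ^ (i + 2))
            = -(-1) ^ i := by
          intro i _
          rw [if_neg (by omega), if_neg (by omega), if_neg (by omega), pow_add]
          simp
        rw [Finset.sum_congr rfl h2, Finset.sum_neg_distrib]
        have h3 : ∀ k : ℕ, ∑ i ∈ Finset.range (2 * k + 1), (-1 : ℝ) ^ i = 1 := by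
          intro k
          induction k with
          | zero => simp
          | succ k ih =>
            rw [show 2 * (k + 1) + 1 = 2 * k + 1 + 1 + 1 by ring, Finset.sum_range_succ,
              Finset.sum_range_succ, ih, pow_succ, pow_succ]
            ring
        rw [h3]
        norm_num
    · intro s hs
      have h1 := upper (N := 2 * n + 1) ⟨n, by ring⟩ s hs
      have h2 : s ^ 2 ≤ n + 1 / 8 := by
        push_cast at h1
        linarith
      exact Real.le_sqrt_of_sq_le h2
  exact ⟨hG, hG.csSup_eq⟩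

end Pool.Agent.Results.MP_befaea_co.LargestSquare
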